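import Pool.Agent.Helper14.C9.TW2
import Pool.Agent.Helper2.C9.Eng

/-!
Project LT (MP_b8862a_ag), block C9/TW: the construction from split data.
-/

set_option linter.unusedSectionVars false
set_option linter.unusedVariables false

open Matrix Module MH

namespace C9

theorem PT_diff {n : Type*} [Fintype n] [DecidableEq n] (S e : Matrix n n ℚ) (lv : n → ℤ) :
    PT S e lv 2 - PT S e lv 0 = tB S * ((Dl lv 1 - Dl lv (-1)) * toC e) * tA S := by
  rw [PT, PT, ← sub_mul, ← mul_sub, ← sub_mul, show (0 : ℤ) - 1 = -1 by norm_num, show (2 : ℤ) - 1 = 1 by norm_num]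

/-- BLOCK TW -/
theorem sharp_of_split {n : Type} [Fintype n] [DecidableEq n] {K S e : Matrix n n ℚ} {lv : n → ℤ}
    {F : Matrix n n ℂ →ₗ[ℂ] Matrix n n ℂ} (h : Split K S e lv F) {H : Matrix n n ℂ}
    (hHd : H = (Dl lv 1 - Dl lv (-1)) * toC e) (hH : ∀ Y, F (H * Y - Y * H) = H * F Y - F Y * H)
    {c : ℂ} (hc : c ≠ 0) (hFH : F H = c • H)
    (hcom : ∀ B : Matrix n n ℂ, toC e * B * toC e = B → B * H = H * B →
      (∀ X, Good K e F X → B * (X * H - H * X) = (X * H - H * X) * B) → ∃ b : ℂ, B = b • toC e)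
    {s t : ℕ} (hs : (Dl lv 1 * toC e).rank = s) (ht : (Dl lv 0 * toC e).rank = t)
    (hrk : finrank ℂ (LinearMap.range F) < 2 * s * t) : Sharp s t := by
  have hd : PT S e lv 2 - PT S e lv 0 = tB S * H * tA S := by rw [PT_diff, hHd]
  have r2 : (PT S e lv 2).rank = s := by
    rw [PT, rank_conj27 (tB_tA h.Ssq) (tA_tB h.Ssq), show (2 : ℤ) - 1 = 1 by norm_num, hs]
  have r1 : (PT S e lv 1).rank = t := by
    rw [PT, rank_conj27 (tB_tA h.Ssq) (tA_tB h.Ssq), show (1 : ℤ) - 1 = 0 by norm_num, ht]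
  have hHe : H * toC e = toC e * H := by
    rw [hHd, mul_assoc, h.hee, ← mul_assoc, mul_sub, Dl_comm h.elv, Dl_comm h.elv, ← sub_mul, mul_assoc, h.hee]
  have hgood : Good K e F H := by
    refine ⟨hHe, ?_, hH⟩
    have h1 : toC K * H = -(Hᵀ * toC K) := by
      have h2 : toC K * (Dl lv 1 - Dl lv (-1)) = -((Dl lv 1 - Dl lv (-1)) * toC K) := by
        rw [mul_sub, Dl_anti h.Klv, Dl_anti h.Klv, neg_neg, sub_mul, neg_sub]
      have h3 : (toC e)ᵀ * (Dl lv 1 - Dl lv (-1)) = (Dl lv 1 - Dl lv (-1)) * (toC e)ᵀ := by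
        have h4 : ∀ k, (toC e)ᵀ * Dl lv k = Dl lv k * (toC e)ᵀ := by
          intro k
          have h5 := congrArg Matrix.transpose (Dl_comm h.elv k)
          rw [Matrix.transpose_mul, Matrix.transpose_mul, Dl_tr] at h5
          exact h5.symm
        rw [mul_sub, sub_mul, h4, h4]
      calc toC K * H = toC K * (Dl lv 1 - Dl lv (-1)) * toC e := by rw [hHd, mul_assoc]
        _ = -((Dl lv 1 - Dl lv (-1)) * (toC K * toC e)) := by rw [h2, neg_mul, mul_assoc]
        _ = -((Dl lv 1 - Dl lv (-1)) * (toC e)ᵀ * toC K) := by rw [← h.heK, mul_assoc]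
        _ = -(Hᵀ * toC K) := by
          rw [← h3, hHd, Matrix.transpose_mul, Matrix.transpose_sub, Dl_tr, Dl_tr]
    rw [h1]
    abel
  have key := engine (PT_big h) h.KSdet (tw S F) (tw_rat h.Ssq h.Frat h.FS) (fun B hB hBp hBX => by
    obtain ⟨B', hB'⟩ : ∃ B', B' = tA S * B * tB S := ⟨_, rfl⟩
    have hBB : B = tB S * B' * tA S := by rw [hB', tw_inv' h.Ssq]
    have e1 : toC e * B' * toC e = B' := by
      rw [hB']
      calc toC e * (tA S * B * tB S) * toC e = (toC e * tA S) * B * (tB S * toC e) := by simp only [mul_assoc]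
        _ = tA S * (toC e * B * toC e) * tB S := by
          rw [tA_comm h.heS, ← tB_comm h.heS]
          simp only [mul_assoc]
        _ = tA S * B * tB S := by rw [hB]
    have inj : ∀ X Y : Matrix n n ℂ, tB S * X * tA S = tB S * Y * tA S → X = Y := by
      intro X Y hXY
      rw [← tw_inv h.Ssq X, hXY, tw_inv h.Ssq]
    have e2 : B' * H = H * B' := by
      apply inj
      rw [← tw_mul h.Ssq, ← tw_mul h.Ssq, ← hBB, ← hd, mul_sub, sub_mul, hBp, hBp]
    have e3 : ∀ X, Good K e F X → B' * (X * H - H * X) = (X * H - H * X) * B' := by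
      intro X hX
      apply inj
      have e4 := good_tw h hX
      have e5 := hBX _ e4 2
      have e6 := hBX _ e4 0
      have e7 : tB S * (X * H - H * X) * tA S = tB S * X * tA S * (PT S e lv 2 - PT S e lv 0) -
          (PT S e lv 2 - PT S e lv 0) * (tB S * X * tA S) := by
        rw [hd, tw_mul h.Ssq, tw_mul h.Ssq, ← sub_mul, ← mul_sub]
      rw [← tw_mul h.Ssq, ← tw_mul h.Ssq, ← hBB, e7]
      have e8 : tB S * X * tA S * (PT S e lv 2 - PT S e lv 0) - (PT S e lv 2 - PT S e lv 0) * (tB S * X * tA S) =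
          (tB S * X * tA S * PT S e lv 2 - PT S e lv 2 * (tB S * X * tA S)) -
            (tB S * X * tA S * PT S e lv 0 - PT S e lv 0 * (tB S * X * tA S)) := by
        rw [mul_sub, sub_mul]
        abel
      rw [e8, mul_sub B, sub_mul _ _ B, e5, e6]
    obtain ⟨b, hb⟩ := hcom B' e1 e2 e3
    refine ⟨b, ?_⟩
    rw [hBB, hb, Matrix.mul_smul, Matrix.smul_mul, mul_assoc, tA_comm h.heS, ← mul_assoc, tB_tA h.Ssq, one_mul])
    (by
      rw [hd]
      exact good_tw h hgood) hc (by rw [hd, tw_conj h.Ssq, hFH, Matrix.mul_smul, Matrix.smul_mul])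
    (by
      rw [r1, r2]
      exact (tw_rank S F).trans_lt hrk)
  rw [r1, r2] at key
  exact key

end C9
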