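import Pool.Agent.Helper81.C9.Defs

/-!
Project LT (MP_b8862a_ag), block C9/TW: the twist of a split Lie algebra by a rational involution. All the data that the engine
needs.
-/

set_option linter.unusedSectionVars false
set_option linter.unusedVariables false

open Matrix Module MH

namespace C9

section tw

variable {n : Type*} [Fintype n] [DecidableEq n]

theorem toC_one14 : toC (1 : Matrix n n ℚ) = 1 := Matrix.map_one _ (map_zero _) (map_one _)

theorem toC_real14 (A : Matrix n n ℚ) : (toC A).map (starRingEnd ℂ) = toC A := by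
  ext i j
  simp [toC]

theorem toC_smul14 (c : ℚ) (A : Matrix n n ℚ) : toC (c • A) = (c : ℂ) • toC A := by
  ext i j
  simp [toC]

theorem toC_sub14 (A B : Matrix n n ℚ) : toC (A - B) = toC A - toC B := by
  ext i j
  simp [toC]

/-- the square root of the twist -/
noncomputable def tA (S : Matrix n n ℚ) : Matrix n n ℂ :=
  ((1 + Complex.I) / 2) • (1 : Matrix n n ℂ) + ((1 - Complex.I) / 2) • toC S

/-- the inverse of the square root of the twist -/
noncomputable def tB (S : Matrix n n ℚ) : Matrix n n ℂ :=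
  ((1 - Complex.I) / 2) • (1 : Matrix n n ℂ) + ((1 + Complex.I) / 2) • toC S

variable {S : Matrix n n ℚ}

theorem cS_sq (h : S * S = 1) : toC S * toC S = 1 := by rw [← toC_mul, h, toC_one14]

/-- products of combinations of `1` and `S` -/
theorem comb_mul (h : S * S = 1) (a b c d : ℂ) :
    (a • (1 : Matrix n n ℂ) + b • toC S) * (c • (1 : Matrix n n ℂ) + d • toC S) =
      (a * c + b * d) • (1 : Matrix n n ℂ) + (a * d + b * c) • toC S := by
  rw [add_mul, mul_add, mul_add]
  simp only [Matrix.smul_mul, Matrix.mul_smul, Matrix.one_mul, Matrix.mul_one, cS_sq h, smul_smul]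
  rw [add_smul, add_smul, mul_comm c a, mul_comm d a, mul_comm c b, mul_comm d b]
  abel

theorem tA_tB (h : S * S = 1) : tA S * tB S = 1 := by
  rw [tA, tB, comb_mul h]
  have h1 : (1 + Complex.I) / 2 * ((1 - Complex.I) / 2) + (1 - Complex.I) / 2 * ((1 + Complex.I) / 2) = 1 := by
    ring_nf
    rw [Complex.I_sq]
    norm_num
  have h2 : (1 + Complex.I) / 2 * ((1 + Complex.I) / 2) + (1 - Complex.I) / 2 * ((1 - Complex.I) / 2) = 0 := by
    ring_nf
    rw [Complex.I_sq]
    norm_num
  rw [h1, h2, one_smul, zero_smul, add_zero]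

theorem tB_tA (h : S * S = 1) : tB S * tA S = 1 := by
  rw [tA, tB, comb_mul h]
  have h1 : (1 - Complex.I) / 2 * ((1 + Complex.I) / 2) + (1 + Complex.I) / 2 * ((1 - Complex.I) / 2) = 1 := by
    ring_nf
    rw [Complex.I_sq]
    norm_num
  have h2 : (1 - Complex.I) / 2 * ((1 - Complex.I) / 2) + (1 + Complex.I) / 2 * ((1 + Complex.I) / 2) = 0 := by
    ring_nf
    rw [Complex.I_sq]
    norm_num
  rw [h1, h2, one_smul, zero_smul, add_zero]

theorem tA_sq (h : S * S = 1) : tA S * tA S = toC S := by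
  rw [tA, comb_mul h]
  have h1 : (1 + Complex.I) / 2 * ((1 + Complex.I) / 2) + (1 - Complex.I) / 2 * ((1 - Complex.I) / 2) = 0 := by
    ring_nf
    rw [Complex.I_sq]
    norm_num
  have h2 : (1 + Complex.I) / 2 * ((1 - Complex.I) / 2) + (1 - Complex.I) / 2 * ((1 + Complex.I) / 2) = 1 := by
    ring_nf
    rw [Complex.I_sq]
    norm_num
  rw [h1, h2, one_smul, zero_smul, zero_add]

theorem tB_sq (h : S * S = 1) : tB S * tB S = toC S := by
  rw [tB, comb_mul h]
  have h1 : (1 - Complex.I) / 2 * ((1 - Complex.I) / 2) + (1 + Complex.I) / 2 * ((1 + Complex.I) / 2) = 0 := by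
    ring_nf
    rw [Complex.I_sq]
    norm_num
  have h2 : (1 - Complex.I) / 2 * ((1 + Complex.I) / 2) + (1 + Complex.I) / 2 * ((1 - Complex.I) / 2) = 1 := by
    ring_nf
    rw [Complex.I_sq]
    norm_num
  rw [h1, h2, one_smul, zero_smul, zero_add]

/-- `S B = A` -/
theorem cS_tB (h : S * S = 1) : toC S * tB S = tA S := by
  rw [← tA_sq h, mul_assoc, tA_tB h, mul_one]

theorem tB_cS (h : S * S = 1) : tB S * toC S = tA S := by
  rw [← tA_sq h, ← mul_assoc, tB_tA h, one_mul]

theorem cS_tA (h : S * S = 1) : toC S * tA S = tB S := by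
  rw [← tB_sq h, mul_assoc, tB_tA h, mul_one]

theorem tA_cS (h : S * S = 1) : tA S * toC S = tB S := by
  rw [← tB_sq h, ← mul_assoc, tA_tB h, one_mul]

theorem tA_tr (h : Sᵀ = S) : (tA S)ᵀ = tA S := by
  rw [tA, Matrix.transpose_add, Matrix.transpose_smul, Matrix.transpose_smul, Matrix.transpose_one, ← toC_transpose, h]

theorem tB_tr (h : Sᵀ = S) : (tB S)ᵀ = tB S := by
  rw [tB, Matrix.transpose_add, Matrix.transpose_smul, Matrix.transpose_smul, Matrix.transpose_one, ← toC_transpose, h]

theorem tA_conj : (tA S).map (starRingEnd ℂ) = tB S := by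
  ext i j
  have h := congrFun (congrFun (toC_real14 S) i) j
  rw [Matrix.map_apply] at h
  simp only [tA, tB, Matrix.map_apply, Matrix.add_apply, Matrix.smul_apply, smul_eq_mul, map_add, map_mul, map_div₀, map_sub,
    map_one, Complex.conj_I, map_ofNat, h, Matrix.one_apply]
  split_ifs
  · simp only [map_one]
    ring
  · simp only [map_zero]
    ring

theorem tB_conj : (tB S).map (starRingEnd ℂ) = tA S := by
  rw [← tA_conj, Matrix.map_map]
  ext i j
  simp

/-- everything that commutes with `S` commutes with the roots -/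
theorem tA_comm {X : Matrix n n ℂ} (h : X * toC S = toC S * X) : X * tA S = tA S * X := by
  rw [tA, mul_add, add_mul, Matrix.mul_smul, Matrix.mul_smul, Matrix.smul_mul, Matrix.smul_mul, h, Matrix.mul_one,
    Matrix.one_mul]

theorem tB_comm {X : Matrix n n ℂ} (h : X * toC S = toC S * X) : X * tB S = tB S * X := by
  rw [tB, mul_add, add_mul, Matrix.mul_smul, Matrix.mul_smul, Matrix.smul_mul, Matrix.smul_mul, h, Matrix.mul_one,
    Matrix.one_mul]

/-- the twisted map -/
noncomputable def tw (S : Matrix n n ℚ) (F : Matrix n n ℂ →ₗ[ℂ] Matrix n n ℂ) : Matrix n n ℂ →ₗ[ℂ] Matrix n n ℂ where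
  toFun Y := tB S * F (tA S * Y * tB S) * tA S
  map_add' X Y := by rw [mul_add, add_mul, map_add, mul_add, add_mul]
  map_smul' c X := by rw [Matrix.mul_smul, Matrix.smul_mul, map_smul, Matrix.mul_smul, Matrix.smul_mul, RingHom.id_apply]

theorem tw_apply (S : Matrix n n ℚ) (F : Matrix n n ℂ →ₗ[ℂ] Matrix n n ℂ) (Y : Matrix n n ℂ) :
    tw S F Y = tB S * F (tA S * Y * tB S) * tA S := rfl

theorem tw_conj (h : S * S = 1) (F : Matrix n n ℂ →ₗ[ℂ] Matrix n n ℂ) (Y : Matrix n n ℂ) :
    tw S F (tB S * Y * tA S) = tB S * F Y * tA S := by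
  rw [tw_apply]
  congr 3
  calc tA S * (tB S * Y * tA S) * tB S = (tA S * tB S) * Y * (tA S * tB S) := by simp only [mul_assoc]
    _ = Y := by rw [tA_tB h, one_mul, mul_one]

theorem tw_rank (S : Matrix n n ℚ) (F : Matrix n n ℂ →ₗ[ℂ] Matrix n n ℂ) :
    finrank ℂ (LinearMap.range (tw S F)) ≤ finrank ℂ (LinearMap.range F) := by
  obtain ⟨G, hG⟩ : ∃ G : Matrix n n ℂ →ₗ[ℂ] Matrix n n ℂ, ∀ Y, G Y = tB S * Y * tA S :=
    ⟨{ toFun := fun Y => tB S * Y * tA S
       map_add' := fun X Y => by rw [mul_add, add_mul]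
       map_smul' := fun c X => by rw [Matrix.mul_smul, Matrix.smul_mul, RingHom.id_apply] }, fun Y => rfl⟩
  have h1 : LinearMap.range (tw S F) ≤ (LinearMap.range F).map G := by
    rintro _ ⟨Y, rfl⟩
    exact ⟨F (tA S * Y * tB S), ⟨_, rfl⟩, by rw [hG, tw_apply]⟩
  exact (Submodule.finrank_mono h1).trans (Submodule.finrank_map_le G _)

/-- rationality of the twisted map -/
theorem tw_rat (h : S * S = 1) {F : Matrix n n ℂ →ₗ[ℂ] Matrix n n ℂ}
    (hr : ∀ A : Matrix n n ℚ, ∃ B : Matrix n n ℚ, F (toC A) = toC B)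
    (hS : ∀ Y, F (toC S * Y * toC S) = toC S * F Y * toC S) (A : Matrix n n ℚ) :
    ∃ B : Matrix n n ℚ, tw S F (toC A) = toC B := by
  obtain ⟨A0, hA0⟩ : ∃ A0 : Matrix n n ℚ, A0 = (1 / 2 : ℚ) • (A + S * A * S) := ⟨_, rfl⟩
  obtain ⟨A1, hA1⟩ : ∃ A1 : Matrix n n ℚ, A1 = (1 / 2 : ℚ) • (A * S - S * A) := ⟨_, rfl⟩
  obtain ⟨B0, hB0⟩ := hr A0
  obtain ⟨B1, hB1⟩ := hr A1
  have hs := cS_sq h
  -- the twisted matrix
  have e1 : tA S * toC A * tB S = toC A0 + Complex.I • toC A1 := by
    rw [hA0, hA1, toC_smul14, toC_smul14, toC_add, toC_sub14]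
    simp only [toC_mul]
    rw [tA, tB]
    simp only [add_mul, mul_add, Matrix.smul_mul, Matrix.mul_smul, Matrix.one_mul, Matrix.mul_one, smul_smul, smul_add,
      smul_sub]
    have k1 : (1 - Complex.I) / 2 * ((1 + Complex.I) / 2) = 1 / 2 := by
      ring_nf
      rw [Complex.I_sq]
      norm_num
    have k2 : (1 + Complex.I) / 2 * ((1 - Complex.I) / 2) = 1 / 2 := by rw [mul_comm, k1]
    have k3 : (1 + Complex.I) / 2 * ((1 + Complex.I) / 2) = Complex.I * (1 / 2) := by
      ring_nf
      rw [Complex.I_sq]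
      ring
    have k4 : (1 - Complex.I) / 2 * ((1 - Complex.I) / 2) = -(Complex.I * (1 / 2)) := by
      ring_nf
      rw [Complex.I_sq]
      ring
    rw [k1, k2, k3, k4, neg_smul]
    push_cast
    abel
  -- commutation of the images
  have c0 : toC B0 * toC S = toC S * toC B0 := by
    have h1 : toC S * toC A0 * toC S = toC A0 := by
      rw [← toC_mul, ← toC_mul, hA0]
      congr 1
      rw [Matrix.mul_smul, Matrix.smul_mul, mul_add, add_mul]
      congr 1
      have : S * (S * A * S) * S = A := by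
        calc S * (S * A * S) * S = (S * S) * A * (S * S) := by simp only [mul_assoc]
          _ = A := by rw [h, one_mul, mul_one]
      rw [this, add_comm]
    have h2 := hS (toC A0)
    rw [h1, hB0] at h2
    calc toC B0 * toC S = toC S * toC B0 * (toC S * toC S) := by
          conv_lhs => rw [h2]
          simp only [mul_assoc]
      _ = toC S * toC B0 := by rw [hs, mul_one]
  have c1 : toC B1 * toC S = -(toC S * toC B1) := by
    have h1 : toC S * toC A1 * toC S = -toC A1 := by
      have h3 : S * A1 * S = (-1 : ℚ) • A1 := by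
        rw [hA1, Matrix.mul_smul, Matrix.smul_mul, mul_sub, sub_mul, smul_smul, mul_comm (-1 : ℚ), ← smul_smul]
        congr 1
        have k1 : S * (A * S) * S = S * A := by
          calc S * (A * S) * S = S * A * (S * S) := by simp only [mul_assoc]
            _ = S * A := by rw [h, mul_one]
        have k2 : S * (S * A) * S = A * S := by rw [← mul_assoc, h, one_mul]
        rw [k1, k2, neg_one_smul, neg_sub]
      rw [← toC_mul, ← toC_mul, h3, toC_smul14]
      push_cast
      rw [neg_one_smul]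
    have h2 := hS (toC A1)
    rw [h1, map_neg, hB1] at h2
    have h3 : toC B1 = -(toC S * toC B1 * toC S) := by rw [← h2, neg_neg]
    calc toC B1 * toC S = -(toC S * toC B1 * (toC S * toC S)) := by
          conv_lhs => rw [h3]
          rw [neg_mul]
          simp only [mul_assoc]
      _ = -(toC S * toC B1) := by rw [hs, mul_one]
  refine ⟨B0 - S * B1, ?_⟩
  rw [tw_apply, e1, map_add, map_smul, hB0, hB1, mul_add, add_mul, mul_assoc (tB S), tA_comm c0, ← mul_assoc (tB S), tB_tA h,
    one_mul, toC_sub14, toC_mul]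
  have e2 : tB S * (Complex.I • toC B1) * tA S = -(toC S * toC B1) := by
    have c2 : toC B1 * tA S = (((1 + Complex.I) / 2) • (1 : Matrix n n ℂ) + (-((1 - Complex.I) / 2)) • toC S) * toC B1 := by
      rw [tA, mul_add, add_mul, Matrix.mul_smul, Matrix.mul_smul, Matrix.smul_mul, Matrix.smul_mul, c1, Matrix.mul_one,
        Matrix.one_mul, smul_neg, neg_smul]
    have c3 : tB S * (((1 + Complex.I) / 2) • (1 : Matrix n n ℂ) + (-((1 - Complex.I) / 2)) • toC S) = Complex.I • toC S := by
      rw [tB, comb_mul h]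
      have k1 : (1 - Complex.I) / 2 * ((1 + Complex.I) / 2) + (1 + Complex.I) / 2 * (-((1 - Complex.I) / 2)) = 0 := by
        ring
      have k2 : (1 - Complex.I) / 2 * (-((1 - Complex.I) / 2)) + (1 + Complex.I) / 2 * ((1 + Complex.I) / 2) = Complex.I := by
        ring
      rw [k1, k2, zero_smul, zero_add]
    rw [Matrix.mul_smul, Matrix.smul_mul, mul_assoc, c2, ← mul_assoc, c3, Matrix.smul_mul, smul_smul, Complex.I_mul_I,
      neg_one_smul]
  rw [e2, sub_eq_add_neg]

end tw

end C9
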