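import Pool.Agent.Helper14.C9.TW

/-!
Project LT (MP_b8862a_ag), block C9/TW: the polarised Hodge structure of split data.
-/

set_option linter.unusedSectionVars false
set_option linter.unusedVariables false

open Matrix Module MH

namespace C9

section tw2

variable {n : Type*} [Fintype n] [DecidableEq n] {lv : n → ℤ}

theorem Dl_mul (k l : ℤ) : Dl lv k * Dl lv l = if k = l then Dl lv k else 0 := by
  rw [Dl, Dl, Matrix.diagonal_mul_diagonal]
  split_ifs with h
  · subst h
    congr 1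
    funext i
    split_ifs <;> simp
  · ext i j
    rw [Matrix.diagonal_apply, Matrix.zero_apply]
    split_ifs with h1 h2 h3
    · exact absurd (h2.symm.trans h3) h
    all_goals simp

theorem Dl_tr (k : ℤ) : (Dl lv k)ᵀ = Dl lv k := by
  rw [Dl, Matrix.diagonal_transpose]

theorem Dl_conj (k : ℤ) : (Dl lv k).map (starRingEnd ℂ) = Dl lv k := by
  ext i j
  rw [Matrix.map_apply, Dl, Matrix.diagonal_apply]
  split_ifs <;> simp

/-- matrices that preserve the levels -/
theorem Dl_comm {e : Matrix n n ℚ} (h : ∀ i j, e i j ≠ 0 → lv i = lv j) (k : ℤ) :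
    toC e * Dl lv k = Dl lv k * toC e := by
  ext i j
  rw [Dl, Matrix.mul_diagonal, Matrix.diagonal_mul]
  by_cases he : e i j = 0
  · rw [toC, Matrix.map_apply, he]
    simp
  · rw [h i j he, mul_comm]

/-- matrices that change the sign of the levels -/
theorem Dl_anti {K : Matrix n n ℚ} (h : ∀ i j, K i j ≠ 0 → lv i + lv j = 0) (k : ℤ) :
    toC K * Dl lv k = Dl lv (-k) * toC K := by
  ext i j
  rw [Dl, Dl, Matrix.mul_diagonal, Matrix.diagonal_mul]
  by_cases he : K i j = 0
  · rw [toC, Matrix.map_apply, he]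
    simp
  · have h1 := h i j he
    have h2 : (lv j = k) ↔ (lv i = -k) := by
      constructor
      · intro h3; omega
      · intro h3; omega
    simp only [h2, mul_comm]

theorem Dl_else {e : Matrix n n ℚ} (h : ∀ i, lv i ≠ -1 → lv i ≠ 0 → lv i ≠ 1 → ∀ j, e i j = 0) {k : ℤ} (h1 : k ≠ -1)
    (h2 : k ≠ 0) (h3 : k ≠ 1) : Dl lv k * toC e = 0 := by
  ext i j
  rw [Dl, Matrix.diagonal_mul, Matrix.zero_apply]
  split_ifs with hi
  · rw [toC, Matrix.map_apply, h i (by rw [hi]; exact h1) (by rw [hi]; exact h2) (by rw [hi]; exact h3) j]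
    simp
  · rw [zero_mul]

theorem Dl_sum {e : Matrix n n ℚ} (h : ∀ i, lv i ≠ -1 → lv i ≠ 0 → lv i ≠ 1 → ∀ j, e i j = 0) :
    Dl lv (-1) * toC e + (Dl lv 0 * toC e + Dl lv 1 * toC e) = toC e := by
  ext i j
  rw [Matrix.add_apply, Matrix.add_apply]
  simp only [Dl, Matrix.diagonal_mul]
  by_cases h1 : lv i = -1
  · rw [if_pos h1, if_neg (by omega), if_neg (by omega)]
    ring
  by_cases h2 : lv i = 0
  · rw [if_neg h1, if_pos h2, if_neg (by omega)]
    ring
  by_cases h3 : lv i = 1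
  · rw [if_neg h1, if_neg h2, if_pos h3]
    ring
  · rw [toC, Matrix.map_apply, h i h1 h2 h3 j]
    simp

/-- the Hodge projections -/
noncomputable def PT (S e : Matrix n n ℚ) (lv : n → ℤ) (p : ℤ) : Matrix n n ℂ := tB S * (Dl lv (p - 1) * toC e) * tA S

variable {K S e : Matrix n n ℚ} {F : Matrix n n ℂ →ₗ[ℂ] Matrix n n ℂ}

theorem Split.hKS (h : Split K S e lv F) : toC K * toC S = toC S * toC K := by
  rw [← toC_mul, ← toC_mul, h.SK]

theorem Split.heS (h : Split K S e lv F) : toC e * toC S = toC S * toC e := by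
  rw [← toC_mul, ← toC_mul, h.eS]

theorem Split.hee (h : Split K S e lv F) : toC e * toC e = toC e := by
  rw [← toC_mul, h.ee]

theorem Split.heK (h : Split K S e lv F) : (toC e)ᵀ * toC K = toC K * toC e := by
  rw [← toC_transpose, ← toC_mul, ← toC_mul, h.eK]

/-- the twist of a product -/
theorem tw_mul (h : S * S = 1) (X Y : Matrix n n ℂ) : (tB S * X * tA S) * (tB S * Y * tA S) = tB S * (X * Y) * tA S := by
  calc (tB S * X * tA S) * (tB S * Y * tA S) = tB S * X * (tA S * tB S) * Y * tA S := by simp only [mul_assoc]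
    _ = tB S * (X * Y) * tA S := by rw [tA_tB h, mul_one]; simp only [mul_assoc]

theorem tw_mul' (h : S * S = 1) (X Y : Matrix n n ℂ) : (tA S * X * tB S) * (tA S * Y * tB S) = tA S * (X * Y) * tB S := by
  calc (tA S * X * tB S) * (tA S * Y * tB S) = tA S * X * (tB S * tA S) * Y * tB S := by simp only [mul_assoc]
    _ = tA S * (X * Y) * tB S := by rw [tB_tA h, mul_one]; simp only [mul_assoc]

theorem tw_inv (h : S * S = 1) (X : Matrix n n ℂ) : tA S * (tB S * X * tA S) * tB S = X := by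
  calc tA S * (tB S * X * tA S) * tB S = (tA S * tB S) * X * (tA S * tB S) := by simp only [mul_assoc]
    _ = X := by rw [tA_tB h, one_mul, mul_one]

theorem tw_inv' (h : S * S = 1) (X : Matrix n n ℂ) : tB S * (tA S * X * tB S) * tA S = X := by
  calc tB S * (tA S * X * tB S) * tA S = (tB S * tA S) * X * (tB S * tA S) := by simp only [mul_assoc]
    _ = X := by rw [tB_tA h, one_mul, mul_one]

theorem PT_mul (h : Split K S e lv F) (p q : ℤ) : PT S e lv p * PT S e lv q = if p = q then PT S e lv p else 0 := by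
  have e1 : Dl lv (p - 1) * toC e * (Dl lv (q - 1) * toC e) = Dl lv (p - 1) * Dl lv (q - 1) * toC e := by
    rw [mul_assoc, ← mul_assoc (toC e), Dl_comm h.elv, mul_assoc (Dl lv (q - 1)), h.hee, ← mul_assoc]
  rw [PT, PT, tw_mul h.Ssq, e1, Dl_mul]
  by_cases hpq : p = q
  · subst hpq
    rw [if_pos rfl, if_pos rfl]
  · rw [if_neg (by omega), if_neg hpq, Matrix.zero_mul, Matrix.mul_zero, Matrix.zero_mul]

theorem PT_supp (h : Split K S e lv F) (p : ℤ) (hp : p ∉ ({0, 1, 2} : Finset ℤ)) : PT S e lv p = 0 := by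
  simp only [Finset.mem_insert, Finset.mem_singleton, not_or] at hp
  rw [PT, Dl_else h.lve (by omega) (by omega) (by omega), Matrix.mul_zero, Matrix.zero_mul]

theorem PT_sum (h : Split K S e lv F) : ∑ p ∈ ({0, 1, 2} : Finset ℤ), PT S e lv p = toC e := by
  rw [Finset.sum_insert (by decide), Finset.sum_insert (by decide), Finset.sum_singleton, PT, PT, PT, ← add_mul, ← mul_add,
    ← add_mul, ← mul_add, show (0 : ℤ) - 1 = -1 by norm_num, show (1 : ℤ) - 1 = 0 by norm_num,
    show (2 : ℤ) - 1 = 1 by norm_num, Dl_sum h.lve, mul_assoc, tA_comm h.heS, ← mul_assoc, tB_tA h.Ssq, one_mul]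

theorem PT_conj (h : Split K S e lv F) (p : ℤ) : (PT S e lv p).map (starRingEnd ℂ) = PT S e lv (2 - p) := by
  have e1 : toC S * (Dl lv (p - 1) * toC e) * toC S = Dl lv (2 - p - 1) * toC e := by
    rw [← mul_assoc, Dl_anti h.Slv, mul_assoc, mul_assoc, h.heS, ← mul_assoc (toC S), cS_sq h.Ssq, one_mul,
      show -(p - 1) = 2 - p - 1 by ring]
  rw [PT, PT, Matrix.map_mul, Matrix.map_mul, Matrix.map_mul, tB_conj, tA_conj, Dl_conj, toC_real14, ← e1]
  calc tA S * (Dl lv (p - 1) * toC e) * tB S = (tB S * toC S) * (Dl lv (p - 1) * toC e) * (toC S * tA S) := by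
        rw [tB_cS h.Ssq, cS_tA h.Ssq]
    _ = tB S * (toC S * (Dl lv (p - 1) * toC e) * toC S) * tA S := by simp only [mul_assoc]

theorem PT_orth (h : Split K S e lv F) (p q : ℤ) (hpq : p + q ≠ 2) :
    (PT S e lv p)ᵀ * toC (K * S) * PT S e lv q = 0 := by
  have h1 : tB S * toC (K * S) * tB S = toC K := by
    rw [toC_mul, ← mul_assoc, ← tB_comm h.hKS, mul_assoc (toC K), tB_cS h.Ssq, mul_assoc, tA_tB h.Ssq, mul_one]
  have h2 : Dl lv (p - 1) * toC K * Dl lv (q - 1) = 0 := by
    rw [mul_assoc, Dl_anti h.Klv, ← mul_assoc, Dl_mul, if_neg (by omega), Matrix.zero_mul]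
  calc (PT S e lv p)ᵀ * toC (K * S) * PT S e lv q
      = tA S * ((toC e)ᵀ * (Dl lv (p - 1) * (tB S * toC (K * S) * tB S) * Dl lv (q - 1)) * toC e) * tA S := by
        rw [PT, PT, Matrix.transpose_mul, Matrix.transpose_mul, Matrix.transpose_mul, Dl_tr, tA_tr h.Ssymm,
          tB_tr h.Ssymm]
        simp only [mul_assoc]
    _ = 0 := by
        rw [h1, h2]
        simp

theorem PT_pos (h : Split K S e lv F) (p : ℤ) (v : n → ℂ) (hv : PT S e lv p *ᵥ v = v) (hv0 : v ≠ 0) :
    0 < (Complex.I ^ (2 * p - 2) * (v ⬝ᵥ (toC (K * S) *ᵥ star v))).re := by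
  obtain ⟨u, hu⟩ : ∃ u, u = tA S *ᵥ v := ⟨_, rfl⟩
  have hvu : v = tB S *ᵥ u := by rw [hu, Matrix.mulVec_mulVec, tB_tA h.Ssq, Matrix.one_mulVec]
  have hu0 : u ≠ 0 := by
    rintro rfl
    rw [Matrix.mulVec_zero] at hvu
    exact hv0 hvu
  have hDu : (Dl lv (p - 1) * toC e) *ᵥ u = u := by
    have h1 : tA S *ᵥ (PT S e lv p *ᵥ v) = tA S *ᵥ v := by rw [hv]
    rw [Matrix.mulVec_mulVec, PT, ← mul_assoc, ← mul_assoc, tA_tB h.Ssq, one_mul, ← Matrix.mulVec_mulVec, ← hu] at h1
    exact h1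
  have hsupp : ∀ i, lv i ≠ p - 1 → u i = 0 := by
    intro i hi
    rw [← hDu, ← Matrix.mulVec_mulVec, Dl, Matrix.mulVec_diagonal, if_neg hi, zero_mul]
  have h1 : star (tB S *ᵥ u) = tA S *ᵥ star u := by
    funext i
    have h2 : ∀ j, star (tB S i j) = tA S i j := fun j => congrFun (congrFun (tB_conj (S := S)) i) j
    simp only [Pi.star_apply, Matrix.mulVec, dotProduct, star_sum, star_mul', h2]
  have h2 : v ⬝ᵥ (toC (K * S) *ᵥ star v) = u ⬝ᵥ (toC (K * S) *ᵥ star u) := by
    have h3 : tB S * toC (K * S) * tA S = toC (K * S) := by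
      rw [toC_mul, ← mul_assoc, ← tB_comm h.hKS, mul_assoc (toC K), tB_cS h.Ssq, mul_assoc, tA_sq h.Ssq]
    rw [hvu, h1, ← Matrix.vecMul_transpose, tB_tr h.Ssymm, ← Matrix.dotProduct_mulVec, Matrix.mulVec_mulVec,
      Matrix.mulVec_mulVec, h3]
  rw [h2]
  by_cases hp : p ∈ ({0, 1, 2} : Finset ℤ)
  · simp only [Finset.mem_insert, Finset.mem_singleton] at hp
    rcases hp with rfl | rfl | rfl
    · have h3 := h.posm u hu0 (fun i hi => hsupp i (by simpa using hi))
      have h4 : Complex.I ^ ((2 : ℤ) * 0 - 2) = -1 := by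
        rw [show (2 : ℤ) * 0 - 2 = -2 by norm_num, _root_.zpow_neg, show Complex.I ^ (2 : ℤ) = Complex.I ^ 2 from rfl,
          Complex.I_sq]
        norm_num
      rw [h4, neg_one_mul, Complex.neg_re]
      linarith
    · have h3 := h.pos0 u hu0 (fun i hi => hsupp i (by simpa using hi))
      have h4 : Complex.I ^ ((2 : ℤ) * 1 - 2) = 1 := by norm_num
      rw [h4, one_mul]
      exact h3
    · have h3 := h.pos1 u hu0 (fun i hi => hsupp i (by norm_num; exact hi))
      have h4 : Complex.I ^ ((2 : ℤ) * 2 - 2) = -1 := by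
        rw [show (2 : ℤ) * 2 - 2 = 2 by norm_num, show Complex.I ^ (2 : ℤ) = Complex.I ^ 2 from rfl,
          Complex.I_sq]
      rw [h4, neg_one_mul, Complex.neg_re]
      linarith
  · exfalso
    rw [PT_supp h p hp, Matrix.zero_mulVec] at hv
    exact hv0 hv.symm

theorem PT_big (h : Split K S e lv F) : BigHW27 (K * S) e (PT S e lv) where
  mul := PT_mul h
  supp := PT_supp h
  sum := PT_sum h
  conj := PT_conj h
  symm := by rw [Matrix.transpose_mul, h.Ksymm, h.Ssymm, h.SK]
  orth := PT_orth h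
  pos := PT_pos h

theorem Split.KSdet (h : Split K S e lv F) : IsUnit (K * S).det := by
  rw [Matrix.det_mul]
  refine h.Kdet.mul ?_
  have h1 : S.det * S.det = 1 := by rw [← Matrix.det_mul, h.Ssq, Matrix.det_one]
  exact IsUnit.of_mul_eq_one _ h1

/-- goodness of the twisted data -/
theorem good_tw (h : Split K S e lv F) {X : Matrix n n ℂ} (hX : Good K e F X) :
    Good (K * S) e (tw S F) (tB S * X * tA S) := by
  refine ⟨?_, ?_, ?_⟩
  · calc tB S * X * tA S * toC e = tB S * X * (toC e * tA S) := by rw [mul_assoc, ← tA_comm h.heS]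
      _ = tB S * (X * toC e) * tA S := by simp only [mul_assoc]
      _ = tB S * toC e * X * tA S := by rw [hX.comm]; simp only [mul_assoc]
      _ = toC e * (tB S * X * tA S) := by rw [← tB_comm h.heS]; simp only [mul_assoc]
  · have h1 : (tB S * X * tA S)ᵀ * toC (K * S) = tA S * (Xᵀ * toC K) * tA S := by
      rw [Matrix.transpose_mul, Matrix.transpose_mul, tA_tr h.Ssymm, tB_tr h.Ssymm, toC_mul]
      calc tA S * (Xᵀ * tB S) * (toC K * toC S) = tA S * Xᵀ * (tB S * toC K) * toC S := by simp only [mul_assoc]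
        _ = tA S * Xᵀ * toC K * (tB S * toC S) := by rw [← tB_comm h.hKS]; simp only [mul_assoc]
        _ = tA S * (Xᵀ * toC K) * tA S := by rw [tB_cS h.Ssq]; simp only [mul_assoc]
    have h2 : toC (K * S) * (tB S * X * tA S) = tA S * (toC K * X) * tA S := by
      rw [toC_mul]
      calc toC K * toC S * (tB S * X * tA S) = toC K * (toC S * tB S) * X * tA S := by simp only [mul_assoc]
        _ = toC K * tA S * X * tA S := by rw [cS_tB h.Ssq]
        _ = tA S * (toC K * X) * tA S := by rw [tA_comm h.hKS]; simp only [mul_assoc]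
    rw [h1, h2, ← add_mul, ← mul_add, hX.skew, Matrix.mul_zero, Matrix.zero_mul]
  · intro Y
    obtain ⟨Y', hY'⟩ : ∃ Y', Y' = tA S * Y * tB S := ⟨_, rfl⟩
    have hY : Y = tB S * Y' * tA S := by rw [hY', tw_inv' h.Ssq]
    rw [hY, tw_mul h.Ssq, tw_mul h.Ssq, ← sub_mul, ← mul_sub, tw_conj h.Ssq, tw_conj h.Ssq, hX.der, mul_sub, sub_mul,
      tw_mul h.Ssq, tw_mul h.Ssq]

end tw2

end C9
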