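import Pool.Agent.Helper81.C9.DefsF

/-!
Project LT (MP_b8862a_ag), block TH of C9: the automorphism of a folding.
-/

set_option linter.unusedSectionVars false
set_option linter.unusedVariables false

open Matrix Module MH

namespace C9

namespace RD

variable {r N : ℕ} {D : RD r N} {σ : Fin r → Fin r} {τ : Fin N → Fin N}

/-- the permutation of the basis -/
def rh14 (σ : Fin r → Fin r) (τ : Fin N → Fin N) : Fin r ⊕ Fin N → Fin r ⊕ Fin N := Sum.map σ τ

theorem Fold.rr (f : D.Fold σ τ) (c : Fin r ⊕ Fin N) : rh14 σ τ (rh14 σ τ c) = c := by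
  rcases c with c | c
  · simp [rh14, f.ss]
  · simp [rh14, f.tt]

theorem Fold.rr_inj (f : D.Fold σ τ) {c d : Fin r ⊕ Fin N} (h : rh14 σ τ c = rh14 σ τ d) : c = d := by
  rw [← f.rr c, h, f.rr]

theorem Th_apply14 (c d : Fin r ⊕ Fin N) : Th σ τ c d = if c = rh14 σ τ d then 1 else 0 := by
  rcases c with c | c <;> rcases d with d | d <;> simp [Th, rh14]

theorem Fold.Th_mul14 (f : D.Fold σ τ) (M : Matrix (Fin r ⊕ Fin N) (Fin r ⊕ Fin N) ℚ) (c d : Fin r ⊕ Fin N) :
    (Th σ τ * M) c d = M (rh14 σ τ c) d := by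
  rw [Matrix.mul_apply, Finset.sum_eq_single (rh14 σ τ c)]
  · rw [Th_apply14, f.rr, if_pos rfl, one_mul]
  · intro k _ hk
    rw [Th_apply14, if_neg, zero_mul]
    rintro rfl
    exact hk (f.rr k).symm
  · intro h
    exact absurd (Finset.mem_univ _) h

theorem Fold.mul_Th14 (f : D.Fold σ τ) (M : Matrix (Fin r ⊕ Fin N) (Fin r ⊕ Fin N) ℚ) (c d : Fin r ⊕ Fin N) :
    (M * Th σ τ) c d = M c (rh14 σ τ d) := by
  rw [Matrix.mul_apply, Finset.sum_eq_single (rh14 σ τ d)]
  · rw [Th_apply14, if_pos rfl, mul_one]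
  · intro k _ hk
    rw [Th_apply14, if_neg hk, mul_zero]
  · intro h
    exact absurd (Finset.mem_univ _) h

/-- BLOCK TH: the automorphism -/
theorem Fold.Th_sq (f : D.Fold σ τ) : Th σ τ * Th σ τ = 1 := by
  ext c d
  rw [f.Th_mul14, Th_apply14, Matrix.one_apply]
  by_cases h : c = d
  · rw [if_pos (by rw [h]), if_pos h]
  · rw [if_neg (fun h1 => h (f.rr_inj h1)), if_neg h]

theorem Fold.Th_tr (f : D.Fold σ τ) : (Th σ τ)ᵀ = Th σ τ := by
  ext c d
  rw [Matrix.transpose_apply, Th_apply14, Th_apply14]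
  by_cases h : c = rh14 σ τ d
  · rw [if_pos h, if_pos (by rw [h, f.rr])]
  · rw [if_neg h, if_neg (fun h1 => h (by rw [h1, f.rr]))]

theorem Fold.sum_s (f : D.Fold σ τ) (g : Fin r → ℤ) : ∑ i, g (σ i) = ∑ i, g i :=
  Equiv.sum_comp (⟨σ, σ, f.ss, f.ss⟩ : Fin r ≃ Fin r) g

theorem Fold.Gs (h : D.Ok) (f : D.Fold σ τ) (i j : Fin r) : D.G (σ i) (σ j) = D.G i j := by
  rw [h.gb, h.gb, f.Bs, f.Bs]

theorem Fold.ip_s (h : D.Ok) (f : D.Fold σ τ) (x z : Fin r → ℤ) :
    D.ip (fun i => x (σ i)) (fun i => z (σ i)) = D.ip x z := by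
  unfold ip
  rw [← f.sum_s (fun i => ∑ j, x i * D.G i j * z j)]
  refine Finset.sum_congr rfl fun i _ => ?_
  rw [← f.sum_s (fun j => x (σ i) * D.G (σ i) j * z j)]
  exact Finset.sum_congr rfl fun j _ => by rw [f.Gs h]

theorem Fold.bf_s (f : D.Fold σ τ) (x z : Fin r → ℤ) :
    D.bf (fun i => x (σ i)) (fun i => z (σ i)) = D.bf x z := by
  unfold bf
  rw [← f.sum_s (fun i => ∑ j, x i * D.B i j * z j)]
  refine Finset.sum_congr rfl fun i _ => ?_
  rw [← f.sum_s (fun j => x (σ i) * D.B (σ i) j * z j)]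
  exact Finset.sum_congr rfl fun j _ => by rw [f.Bs]

theorem Fold.lev_s (f : D.Fold σ τ) (x : Fin r → ℤ) : D.lev (fun i => x (σ i)) = D.lev x := by
  unfold lev
  rw [← f.sum_s (fun i => D.y i * x i)]
  exact Finset.sum_congr rfl fun i _ => by rw [f.ys]

theorem Fold.vs (f : D.Fold σ τ) (a : Fin N) : D.v (τ a) = fun i => D.v a (σ i) := funext (f.vt a)

/-- relations between the roots -/
theorem Fold.veq (f : D.Fold σ τ) {x z : Fin r → ℤ} (h : (fun i => x (σ i)) = fun i => z (σ i)) : x = z := by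
  funext i
  have h1 := congrFun h (σ i)
  simpa only [f.ss] using h1

theorem Fold.neg_iff (f : D.Fold σ τ) (a b : Fin N) : D.v (τ b) = -D.v (τ a) ↔ D.v b = -D.v a := by
  rw [f.vs, f.vs]
  constructor
  · intro h
    exact f.veq (z := -D.v a) h
  · intro h
    rw [h]
    rfl

theorem Fold.add_iff (f : D.Fold σ τ) (a b c : Fin N) :
    D.v (τ c) = D.v (τ a) + D.v (τ b) ↔ D.v c = D.v a + D.v b := by
  rw [f.vs, f.vs, f.vs]
  constructor
  · intro h
    exact f.veq (z := D.v a + D.v b) h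
  · intro h
    rw [h]
    rfl

theorem Fold.K_rr (h : D.Ok) (f : D.Fold σ τ) (c d : Fin r ⊕ Fin N) : D.K (rh14 σ τ c) (rh14 σ τ d) = D.K c d := by
  rcases c with c | c <;> rcases d with d | d
  · simp only [rh14, Sum.map_inl, K, fromBlocks_apply₁₁, Matrix.neg_apply, Matrix.map_apply, f.Gs h]
  · rfl
  · rfl
  · simp only [rh14, Sum.map_inr, K, fromBlocks_apply₂₂, Matrix.of_apply, f.neg_iff]

theorem Fold.S_rr (f : D.Fold σ τ) (c d : Fin r ⊕ Fin N) : D.S (rh14 σ τ c) (rh14 σ τ d) = D.S c d := by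
  rcases c with c | c <;> rcases d with d | d
  · simp only [rh14, Sum.map_inl, S, fromBlocks_apply₁₁, Matrix.neg_apply, Matrix.one_apply]
    by_cases h : c = d
    · rw [if_pos (by rw [h]), if_pos h]
    · rw [if_neg, if_neg h]
      intro h1
      apply h
      rw [← f.ss c, h1, f.ss]
  · rfl
  · rfl
  · simp only [rh14, Sum.map_inr, S, fromBlocks_apply₂₂, Matrix.of_apply, f.neg_iff]
    rw [f.vs c, f.lev_s]

theorem Fold.Th_K (h : D.Ok) (f : D.Fold σ τ) : Th σ τ * D.K = D.K * Th σ τ := by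
  ext c d
  rw [f.Th_mul14, f.mul_Th14, ← f.K_rr h (rh14 σ τ c) d, f.rr]

theorem Fold.Th_S (h : D.Ok) (f : D.Fold σ τ) : Th σ τ * D.S = D.S * Th σ τ := by
  ext c d
  rw [f.Th_mul14, f.mul_Th14, ← f.S_rr (rh14 σ τ c) d, f.rr]

theorem Fold.single_s (f : D.Fold σ τ) (i : Fin r) :
    (Pi.single (σ i) 1 : Fin r → ℤ) = fun j => (Pi.single i 1 : Fin r → ℤ) (σ j) := by
  funext j
  by_cases h : j = σ i
  · subst h
    rw [Pi.single_eq_same, f.ss, Pi.single_eq_same]
  · rw [Pi.single_eq_of_ne h, Pi.single_eq_of_ne]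
    intro h1
    apply h
    rw [← h1, f.ss]

theorem Fold.st_rr (h : D.Ok) (f : D.Fold σ τ) (a b c : Fin r ⊕ Fin N) :
    D.st (rh14 σ τ a) (rh14 σ τ b) (rh14 σ τ c) = D.st a b c := by
  rcases a with a | a <;> rcases b with b | b
  · rcases c with c | c <;> rfl
  · have h1 : (rh14 σ τ c = .inr (τ b)) ↔ c = .inr b := by
      constructor
      · intro h2
        exact f.rr_inj (d := .inr b) h2
      · intro h2
        rw [h2]
        rfl
    show (if rh14 σ τ c = .inr (τ b) then D.ip (Pi.single (σ a) 1) (D.v (τ b)) else 0) =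
      if c = .inr b then D.ip (Pi.single a 1) (D.v b) else 0
    simp only [h1]
    rw [f.single_s, f.vs, f.ip_s h]
  · have h1 : (rh14 σ τ c = .inr (τ a)) ↔ c = .inr a := by
      constructor
      · intro h2
        exact f.rr_inj (d := .inr a) h2
      · intro h2
        rw [h2]
        rfl
    show (if rh14 σ τ c = .inr (τ a) then -D.ip (Pi.single (σ b) 1) (D.v (τ a)) else 0) =
      if c = .inr a then -D.ip (Pi.single b 1) (D.v a) else 0
    simp only [h1]
    rw [f.single_s, f.vs, f.ip_s h]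
  · rcases c with k | c
    · show (if D.v (τ b) = -D.v (τ a) then -D.v (τ a) (σ k) else 0) = if D.v b = -D.v a then -D.v a k else 0
      simp only [f.neg_iff, f.vt, f.ss]
    · show (if D.v (τ c) = D.v (τ a) + D.v (τ b) then sg (D.bf (D.v (τ a)) (D.v (τ b))) else 0) =
        if D.v c = D.v a + D.v b then sg (D.bf (D.v a) (D.v b)) else 0
      simp only [f.add_iff]
      rw [f.vs a, f.vs b, f.bf_s]

theorem Fold.Th_L (h : D.Ok) (f : D.Fold σ τ) (a : Fin r ⊕ Fin N) :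
    Th σ τ * D.L a * Th σ τ = ∑ c, Th σ τ c a • D.L c := by
  rw [Finset.sum_eq_single (rh14 σ τ a)]
  · rw [Th_apply14, if_pos rfl, one_smul]
    ext c d
    rw [f.mul_Th14, f.Th_mul14]
    show (D.st a (rh14 σ τ d) (rh14 σ τ c) : ℚ) = (D.st (rh14 σ τ a) d c : ℚ)
    rw [← f.st_rr h a, f.rr, f.rr]
  · intro c _ hc
    rw [Th_apply14, if_neg hc, zero_smul]
  · intro h
    exact absurd (Finset.mem_univ _) h

end RD

end C9
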